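import Pool.Agent.Y966.LD.Main1

/-!
The exact large deviation law for the lower tail of the total stopping time of the `3x+1` function.
-/

set_option autoImplicit false

namespace Pool.Agent.Results.MP_f7abf1_nt.LowerTailLaw

/-- The `3x+1` function. -/
def T (n : ℕ) : ℕ := if n % 2 = 0 then n / 2 else (3 * n + 1) / 2

/-- `k` is the total stopping time of `n`: the least `k ≥ 0` with `T^(k)(n) = 1` (so it is finite). -/
def IsStoppingTime (n k : ℕ) : Prop := IsLeast {j : ℕ | T^[j] n = 1} k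

/-- `g(a) = sup_θ (θ a - log (½ (2^θ + (2/3)^θ)))`. -/
noncomputable def g (a : ℝ) : ℝ :=
  ⨆ θ : ℝ, (θ * a - Real.log ((1 / 2) * ((2 : ℝ) ^ θ + (2 / 3 : ℝ) ^ θ)))

/-- The numbers `2 ≤ n ≤ x` whose total stopping time is finite and at most `α log n`. -/
def Low (α x : ℝ) : Set ℕ :=
  {n : ℕ | 2 ≤ n ∧ (n : ℝ) ≤ x ∧ ∃ k : ℕ, IsStoppingTime n k ∧ (k : ℝ) ≤ α * Real.log n}

/-- For `1 / log 2 < α ≤ 3 / log (8/3)` (between `1.4427` and `3.0586`) the number of `2 ≤ n ≤ x`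
with `σ_∞(n) ≤ α log n` is `x^(1 - α g(1/α) + o(1))`, the exponent `1 - α g(1/α)` being positive:
the large deviation law of the repeated random walk model is exact there.  For every
`α > 1 / log 2` the number is at most `x^(u + ε)` for all large `x`, with
`u = (log (3/2) / log 3) (1 + α log (3/2))`, and `u < 1` when `α < log 2 / (log (3/2))²`
(which is about `4.216`). -/
theorem result :
    (∀ α : ℝ, 1 / Real.log 2 < α → α ≤ 3 / Real.log (8 / 3) →
      0 < 1 - α * g (1 / α) ∧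
      ∀ ε : ℝ, 0 < ε → ∃ X₀ : ℝ, ∀ x : ℝ, X₀ ≤ x →
        x ^ (1 - α * g (1 / α) - ε) ≤ ((Low α x).ncard : ℝ) ∧
        ((Low α x).ncard : ℝ) ≤ x ^ (1 - α * g (1 / α) + ε)) ∧
    (∀ α : ℝ, 1 / Real.log 2 < α → ∀ ε : ℝ, 0 < ε → ∃ X₀ : ℝ, ∀ x : ℝ, X₀ ≤ x →
      ((Low α x).ncard : ℝ) ≤
        x ^ (Real.log (3 / 2) / Real.log 3 * (1 + α * Real.log (3 / 2)) + ε)) ∧
    (∀ α : ℝ, α < Real.log 2 / Real.log (3 / 2) ^ 2 →
      Real.log (3 / 2) / Real.log 3 * (1 + α * Real.log (3 / 2)) < 1) := by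
  open Pool.Agent.H395R2.G3 Pool.Agent.Y966.LD in
  refine ⟨fun α h1 h2 => ⟨?_, main_low.1 α h1 h2⟩, fun α h1 ε hε => ?_, fun α hα => ?_⟩
  · have hl2 : 0 < Real.log 2 := Real.log_pos (by norm_num)
    have hα0 : 0 < α := lt_trans (by positivity) h1
    have h3 : 0 < FF (rr α) := FF_pos_of (rr_pos h1)
      (lt_of_le_of_lt (rr_le_third h1 h2) third_lt) (by norm_num) FF_low.le
    have h4 : 1 - α * g (1 / α) = α * FF (rr α) := expo_eq h1
    rw [h4]
    positivity
  · rw [add_comm 1 (α * Real.log (3 / 2))]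
    exact main_low.2 α h1 ε hε
  · have h32 : 0 < Real.log (3 / 2) := Real.log_pos (by norm_num)
    have hl3 : 0 < Real.log 3 := Real.log_pos (by norm_num)
    rw [lt_div_iff₀ (by positivity)] at hα
    rw [div_mul_eq_mul_div, div_lt_one hl3]
    have e : Real.log 3 = Real.log 2 + Real.log (3 / 2) := by
      rw [log32]
      ring
    rw [e]
    nlinarith

end Pool.Agent.Results.MP_f7abf1_nt.LowerTailLaw
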