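import Pool.Agent.Y965.PL.Inp

set_option autoImplicit false

/-!
# Scaled total stopping times along the sequences `⌊n ^ c⌋`

Let `1 < c < 101/100`. The scaled total stopping times `γ_∞(m) = σ_∞(m) / log m` of the terms
`m = ⌊n ^ c⌋` follow the same laws as those of all integers, and every bounded function of the pair
(total stopping time, number of odd terms) has the same averages along the sequence as over all integers,
with a power saving error term which is uniform in the function.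

Method: a dispersion argument. With `2 ^ t ≈ N ^ 0.65` the pair is for `m ∈ (N ^ 0.99, N]` a function of
`T^t(m)` and the number of odd terms before it; the fibres of this pair of functions have about
`N ^ 0.13` elements, and the correlations of the phases `k m ^ (1 / c)` over the pairs `m, m + h` of
elements of one fibre, which depend on `m` modulo `2 ^ t` only, are small by the inequality of Kusmin and
Landau.
-/

namespace Pool.Agent.Results.MP_f7abf1_nt.PiatetskiShapiroScaledTimes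

open Filter Topology ENNReal

/-- the `3x+1` function -/
def T (n : ℕ) : ℕ := if n % 2 = 0 then n / 2 else (3 * n + 1) / 2

/-- the total stopping time, the least `k` with `T^k(n) = 1`, and `⊤ = ∞` if there is none -/
noncomputable def sigma (n : ℕ) : ℕ∞ := sInf {k : ℕ∞ | ∃ j : ℕ, T^[j] n = 1 ∧ k = j}

/-- the number of odd terms among `n, T n, ..., T^(k-1) n` -/
def odds (k n : ℕ) : ℕ := ((Finset.range k).filter fun i => T^[i] n % 2 = 1).card

/-- the number of odd terms of the trajectory before `1` is reached for the first time, and `0` if it is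
never reached -/
noncomputable def oddTerms (n : ℕ) : ℕ := odds (sigma n).toNat n

/-- The scaled total stopping time `γ_∞(n) = σ_∞(n) / log n` in `[0, ∞]`. -/
noncomputable def scaled (n : ℕ) : ℝ≥0∞ := (sigma n : ℝ≥0∞) / ENNReal.ofReal (Real.log n)

/-- the terms `⌊n ^ c⌋` of the sequence -/
noncomputable def ps (c : ℝ) (n : ℕ) : ℕ := ⌊(n : ℝ) ^ c⌋₊

/-- the positive integers with the property `P` have the natural density `d` -/
def HasDensity (P : ℕ → Prop) (d : ℝ) : Prop :=
  Tendsto (fun N : ℕ => ({n : ℕ | 1 ≤ n ∧ n ≤ N ∧ P n}.ncard : ℝ) / N) atTop (𝓝 d)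

/-- `2 / log (4/3) * log n + x * log 3 * √(2 log n / (log (4/3))^3)` -/
noncomputable def bound (x : ℝ) (n : ℕ) : ℝ :=
  2 / Real.log (4 / 3) * Real.log n
    + x * (Real.log 3 * Real.sqrt (2 * Real.log n / Real.log (4 / 3) ^ 3))

/-- The distribution function of the standard normal law. -/
noncomputable def Phi (x : ℝ) : ℝ :=
  ProbabilityTheory.cdf (ProbabilityTheory.gaussianReal 0 1) x

/-- The total stopping time of `n` is finite, at most `bound x n`, congruent to `a` modulo `m`, and the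
number of odd terms of the trajectory before `1` is reached is congruent to `b` modulo `m`. -/
def Level (m : ℕ) (a b : ℤ) (x : ℝ) (n : ℕ) : Prop :=
  ∃ t : ℕ, sigma n = t ∧ (t : ℝ) ≤ bound x n ∧ (t : ℤ) ≡ a [ZMOD m] ∧ (odds t n : ℤ) ≡ b [ZMOD m]

open Pool.Agent.H499R2.HL Pool.Agent.Y965.PL

theorem T_eq : T = Pool.Agent.H499R2.ND.Tn := by funext a; rfl

theorem sigma_eq {n k : ℕ} (h : H k n) : sigma n = k := by
  unfold sigma
  rw [T_eq]
  apply le_antisymm
  · exact sInf_le ⟨k, h.1, rfl⟩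
  · refine le_sInf ?_
    rintro j ⟨i, hi, rfl⟩
    have : k ≤ i := by
      by_contra hlt
      exact h.2 i (by omega) hi
    exact_mod_cast this

theorem sigma_top {n : ℕ} (h : ¬ ∃ k, H k n) : sigma n = ⊤ := by
  unfold sigma
  rw [T_eq]
  have : {k : ℕ∞ | ∃ j : ℕ, Pool.Agent.H499R2.ND.Tn^[j] n = 1 ∧ k = j} = ∅ := by
    rw [Set.eq_empty_iff_forall_notMem]
    rintro k ⟨j, hj, _⟩
    exact h (H_iff_ex.2 ⟨j, hj⟩)
  rw [this, sInf_empty]

theorem sigma_ne_top {n : ℕ} : sigma n ≠ ⊤ ↔ ∃ k, H k n := by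
  constructor
  · intro h
    by_contra hcon
    exact h (sigma_top hcon)
  · rintro ⟨k, hk⟩
    rw [sigma_eq hk]
    exact ENat.natCast_ne_top k

theorem sigma_iff {n k : ℕ} : sigma n = k ↔ H k n := by
  constructor
  · intro h
    obtain ⟨k', hk'⟩ := sigma_ne_top.1 (show sigma n ≠ ⊤ by rw [h]; exact ENat.natCast_ne_top k)
    have h1 := sigma_eq hk'
    rw [h] at h1
    have h2 : k = k' := by exact_mod_cast h1
    rw [h2]; exact hk'
  · exact sigma_eq

theorem level_iff (m : ℕ) (a b : ℤ) (x : ℝ) (n : ℕ) : Level m a b x n ↔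
    (True ∧ Lv valK (clsK m a b) (th (2 / Real.log (4 / 3)) bK x) n) := by
  rw [true_and]
  unfold Level Lv valK clsK bK
  refine exists_congr fun k => ?_
  rw [th_eq, sigma_iff]
  exact Iff.rfl

theorem count_ind (P : ℕ → Prop) (X : ℕ) (s : ℕ → ℕ) :
    ({n : ℕ | 1 ≤ n ∧ n ≤ X ∧ P (s n)}.ncard : ℝ) = ∑ n ∈ Finset.Icc 1 X, ind P (s n) := by
  classical
  unfold ind
  rw [Finset.sum_boole]
  have e : {n : ℕ | 1 ≤ n ∧ n ≤ X ∧ P (s n)} = ((Finset.Icc 1 X).filter fun n => P (s n) : Finset ℕ) := by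
    ext n
    simp only [Set.mem_ofPred_eq, Finset.coe_filter, Finset.mem_Icc, and_assoc]
  rw [e, Set.ncard_coe_finset]

theorem along_of {c : ℝ} {P Q : ℕ → Prop} {d : ℝ} (h : MnS (Pool.Agent.Y965.PL.ps c) (ind Q) d)
    (hPQ : ∀ n, P n ↔ Q n) : HasDensity (fun n => P (ps c n)) d := by
  unfold HasDensity
  unfold MnS at h
  refine h.congr fun X => ?_
  rw [count_ind P X (ps c)]
  congr 1
  apply Finset.sum_congr rfl
  intro n _
  exact ind_congr (hPQ _).symm

theorem scaled_top {n : ℕ} (h : sigma n = ⊤) : scaled n = ⊤ := by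
  unfold scaled
  rw [h, ENat.toENNReal_top]
  exact ENNReal.top_div_of_ne_top ENNReal.ofReal_ne_top

open Pool.Agent.H499R2.HL in
theorem scaled_eq {n k : ℕ} (h : H k n) : scaled n = ENNReal.ofReal ((k : ℝ) / Real.log n) := by
  unfold scaled
  rw [sigma_eq h, ENat.toENNReal_coe, ← ENNReal.ofReal_natCast]
  rcases (Real.log_natCast_nonneg n).eq_or_lt with h0 | h0
  · have hk : k = 0 := by
      rcases Nat.lt_trichotomy n 1 with h1 | h1 | h1
      · exfalso
        have hn : n = 0 := by omega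
        subst hn
        have h2 : ∀ j : ℕ, Pool.Agent.H499R2.ND.Tn^[j] 0 = 0 := by
          intro j
          induction j with
          | zero => rfl
          | succ j ih => rw [Function.iterate_succ_apply', ih]; rfl
        have := h.1
        rw [h2] at this
        omega
      · subst h1
        by_contra hk
        exact h.2 0 (by omega) rfl
      · exfalso
        have : 0 < Real.log (n : ℝ) := Real.log_pos (by exact_mod_cast h1)
        linarith
    subst hk
    simp
  · rw [ENNReal.ofReal_div_of_pos h0]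

/-- SCALED TOTAL STOPPING TIMES ALONG `⌊n ^ c⌋`. The positive integers with finite total stopping time
have a positive natural density `δ`, and `δ = 1` if and only if all are of this kind. Let
`1 < c < 101/100`.

(1) (Uniform transfer.) For every function `φ` of two variables, bounded by `1`, the sum of `φ` at the
pair (total stopping time, number of odd terms) of `⌊n ^ c⌋` over `n ≤ X` is the sum over all
`m ≤ X ^ c` of `φ` at the pair of `m`, with the weights `(m + 1) ^ (1 / c) - m ^ (1 / c)`, up to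
`K X ^ (1 - 1 / 4000)`, with `K` independent of `φ` and `X`.

(2) The `n` with `γ_∞(⌊n ^ c⌋) = ∞` have natural density `1 - δ`.

(3) The `n` for which `σ_∞(⌊n ^ c⌋)` is finite, `≡ a` modulo `m` and at most `bound x`, and for which the
number of odd terms is `≡ b` modulo `m`, have natural density `δ Phi(x) / m ^ 2`.

(4) For every continuous function `h` on `[0, ∞]` the mean value of `h(γ_∞(⌊n ^ c⌋))` is
`δ h(2 / log (4/3)) + (1 - δ) h(∞)`. -/
theorem result : ∃ δ : ℝ, 0 < δ ∧ δ ≤ 1 ∧ (δ = 1 ↔ ∀ n : ℕ, 1 ≤ n → sigma n ≠ ⊤) ∧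
    HasDensity (fun n => sigma n ≠ ⊤) δ ∧
    ∀ c : ℝ, 1 < c → c < 101 / 100 →
    (∃ K : ℝ, ∀ φ : ℕ∞ → ℕ → ℝ, (∀ t o, |φ t o| ≤ 1) → ∀ X : ℕ, 1 ≤ X →
      |∑ n ∈ Finset.Icc 1 X, φ (sigma (ps c n)) (oddTerms (ps c n)) -
        ∑ m ∈ Finset.Icc 1 (ps c X), (((m : ℝ) + 1) ^ (1 / c) - (m : ℝ) ^ (1 / c)) * φ (sigma m) (oddTerms m)| ≤
          K * (X : ℝ) ^ (1 - 1 / 4000 : ℝ)) ∧
    HasDensity (fun n => scaled (ps c n) = ⊤) (1 - δ) ∧
    (∀ (m : ℕ) (a b : ℤ) (x : ℝ), 1 ≤ m → HasDensity (fun n => Level m a b x (ps c n)) (δ * Phi x / m ^ 2)) ∧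
    ∀ h : ℝ≥0∞ → ℝ, Continuous h → Tendsto (fun X : ℕ => (∑ n ∈ Finset.Icc 1 X, h (scaled (ps c n))) / X)
      atTop (𝓝 (δ * h (ENNReal.ofReal (2 / Real.log (4 / 3))) + (1 - δ) * h ⊤)) := by
  classical
  obtain ⟨δ, hδ, h2, h3⟩ := nat1
  have hν := nu_pos'
  refine ⟨δ, hδ.pos, hδ.le, ?_, ?_, fun c hc hc' => ?_⟩
  · rw [h2]
    refine forall₂_congr fun n _ => ?_
    rw [sigma_ne_top, H_iff_ex]
  · have h4 : Pool.Agent.H499R2.ND.Dn (fun n => sigma n ≠ ⊤) δ :=
      Pool.Agent.H499R2.LT.Dn_iff (fun n _ => by rw [sigma_ne_top, H_iff_ex]) h3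
    exact h4
  obtain ⟨K, hK, hT⟩ := transfer hc hc'
  obtain ⟨hLaw, hJ⟩ := psK hc hc' hK hT hδ
  have hst : ∀ n : ℕ, scaled n = ⊤ ↔ ¬ ∃ k, H k n := by
    intro n
    constructor
    · rintro hs ⟨k, hk⟩
      rw [scaled_eq hk] at hs
      exact ENNReal.ofReal_ne_top hs
    · intro hn
      exact scaled_top (sigma_top hn)
  refine ⟨⟨K, fun φ hφ X hX => ?_⟩, ?_, ?_, ?_⟩
  · have h1 := TS_congr (G := fun z => φ (sigma z.toNat) (oddTerms z.toNat))
      (hT _ (async_Fg (g := fun k o => φ k o) (g0 := φ ⊤ 0) (fun _ _ => hφ _ _) (hφ _ _)))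
      (fun x => hφ _ _) (fun m => by
        simp only [Int.toNat_natCast]
        by_cases h : ∃ k, H k m
        · obtain ⟨k, hk⟩ := h
          rw [Fg_H hk]
          unfold oddTerms
          rw [sigma_eq hk, ENat.toNat_natCast]
          rfl
        · rw [Fg_not h]
          unfold oddTerms
          rw [sigma_top h, ENat.toNat_top]
          rfl)
    have h2 := h1.2 X hX
    have e1 : ∑ n ∈ Finset.Icc 1 X, (fun z : ℤ => φ (sigma z.toNat) (oddTerms z.toNat)) ⌊(n : ℝ) ^ c⌋ =
        ∑ n ∈ Finset.Icc 1 X, φ (sigma (ps c n)) (oddTerms (ps c n)) := by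
      apply Finset.sum_congr rfl
      intro n _
      have e : (⌊(n : ℝ) ^ c⌋ : ℤ) = ((⌊(n : ℝ) ^ c⌋₊ : ℕ) : ℤ) :=
        (Int.natCast_floor_eq_floor (by positivity)).symm
      dsimp only
      rw [e, Int.toNat_natCast]; rfl
    rw [e1] at h2
    have e2 : ∑ m ∈ Finset.Icc 1 ⌊(X : ℝ) ^ c⌋₊, (fun z : ℤ => φ (sigma z.toNat) (oddTerms z.toNat)) (m : ℤ) *
        Pool.Agent.Y965.PS.ell (1 / c) m =
        ∑ m ∈ Finset.Icc 1 (ps c X), (((m : ℝ) + 1) ^ (1 / c) - (m : ℝ) ^ (1 / c)) * φ (sigma m) (oddTerms m) := by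
      apply Finset.sum_congr rfl
      intro m _
      simp only [Int.toNat_natCast]
      rw [mul_comm]; rfl
    rw [e2] at h2
    exact h2
  · -- infinite values
    have h1 : MnS (Pool.Agent.Y965.PL.ps c) (fun m => 1 - ind (fun n => True ∧ ∃ k, H k n) m) (1 - δ) :=
      (MnS_const _ 1).sub hLaw.fin
    have e : (fun m => 1 - ind (fun n => True ∧ ∃ k, H k n) m) = ind (fun n => scaled n = ⊤) := by
      funext m
      by_cases hm : ∃ k, H k m
      · rw [ind_pos (P := fun n => True ∧ ∃ k, H k n) ⟨trivial, hm⟩,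
          ind_neg (P := fun n => scaled n = ⊤) (fun h => (hst m).1 h hm), sub_self]
      · rw [ind_neg (P := fun n => True ∧ ∃ k, H k n) (fun h => hm h.2),
          ind_pos (P := fun n => scaled n = ⊤) ((hst m).2 hm), sub_zero]
    rw [e] at h1
    exact along_of (P := fun m => scaled m = ⊤) h1 (fun _ => Iff.rfl)
  · intro m a b x hm
    have h1 := hJ m a b hm x
    have e : Pool.Agent.H499R2.ND.Phi x = Phi x := Pool.Agent.H499R2.ND.phi_cdf x
    rw [e] at h1
    exact along_of (P := Level m a b x) h1 (level_iff m a b x)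
  · intro h hh
    set M : ℝ := ‖BoundedContinuousFunction.mkOfCompact (⟨h, hh⟩ : C(ℝ≥0∞, ℝ))‖ with hM
    have hMb : ∀ t : ℝ≥0∞, |h t| ≤ M := fun t =>
      (BoundedContinuousFunction.mkOfCompact (⟨h, hh⟩ : C(ℝ≥0∞, ℝ))).norm_coe_le_norm t
    have hcont : Continuous (fun t : ℝ => h (ENNReal.ofReal t)) := hh.comp ENNReal.continuous_ofReal
    exact ps_cont (fun n => le_ps hc.le n) bK_pos hLaw (h := fun t : ℝ => h (ENNReal.ofReal t)) (h1 := h ⊤)
      hcont.continuousAt (B := M) (fun _ => hMb _) (hMb _) (w := fun m => h (scaled m))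
      (fun m k _ _ hk => by
        rw [scaled_eq hk]
        rfl) (fun m _ _ hn => by
        rw [(hst m).2 hn]) (fun _ => hMb _) (fun m _ hE => absurd trivial hE)

end Pool.Agent.Results.MP_f7abf1_nt.PiatetskiShapiroScaledTimes
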