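import Mathlib
import Pool.Agent.Y964.LW.C4
import Pool.Agent.Y964.LW.C5

set_option autoImplicit false

/-!
The limit law of the scaled total stopping times of the `3x+1` function along sparse multiplicative
sets and multiplicative functions.

The sets `E` here have density zero (like the sums of two squares, `E(N) ~ K N / √(log N)`, or the
integers composed of primes from a set of positive relative density). All errors are relative to the
number of elements of `E`, respectively to the sum of a multiplicative majorant.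
-/

namespace Pool.Agent.Results.MP_f7abf1_nt.StoppingTimesInSemigroups

open Filter Topology Finset

/-- the `3x+1` function -/
def T (n : ℕ) : ℕ := if n % 2 = 0 then n / 2 else (3 * n + 1) / 2

/-- `t` is the total stopping time of `n` -/
def IsTotalStoppingTime (n t : ℕ) : Prop := T^[t] n = 1 ∧ ∀ j < t, T^[j] n ≠ 1

/-- the number of odd terms among `n, T n, ..., T^(k-1) n` -/
def odds (k n : ℕ) : ℕ := ((Finset.range k).filter fun i => T^[i] n % 2 = 1).card

/-- the positive integers with the property `P` have the natural density `δ` -/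
def HasDensity (P : ℕ → Prop) (δ : ℝ) : Prop :=
  Tendsto (fun N : ℕ => ({n : ℕ | 1 ≤ n ∧ n ≤ N ∧ P n}.ncard : ℝ) / N) atTop (𝓝 δ)

/-- `(½ log (4/3))⁻¹ + x * log 3 * √(2 / ((log (4/3))^3 log n))` -/
noncomputable def bound (x : ℝ) (n : ℕ) : ℝ :=
  (1 / 2 * Real.log (4 / 3))⁻¹ + x * (Real.log 3 * Real.sqrt (2 / (Real.log (4 / 3) ^ 3 * Real.log n)))

/-- The distribution function of the standard normal law. -/
noncomputable def Phi (x : ℝ) : ℝ :=
  ProbabilityTheory.cdf (ProbabilityTheory.gaussianReal 0 1) x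

/-- The total stopping time of `n` is finite and `≡ a` modulo `m`, the number of odd terms before `1`
is `≡ b` modulo `m`, and the scaled total stopping time is at most `bound x n`. -/
def Level (m : ℕ) (a b : ℤ) (x : ℝ) (n : ℕ) : Prop :=
  ∃ t : ℕ, (t : ℝ) / Real.log n ≤ bound x n ∧ IsTotalStoppingTime n t ∧
    (t : ℤ) ≡ a [ZMOD m] ∧ (odds t n : ℤ) ≡ b [ZMOD m]

/-- `∑_{p ≤ x} h p ≥ c x / log x` for all `x ≥ x₀` (sum over primes). -/
def PrimeMean (c : ℝ) (x₀ : ℕ) (h : ℕ → ℝ) : Prop :=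
  ∀ x : ℕ, x₀ ≤ x → c * (x / Real.log x) ≤ ∑ p ∈ (Icc 1 x).filter Nat.Prime, h p

open scoped Classical in
/-- THE RELATIVE FREQUENCY of the property `P` is `l` for all bounded multiplicative functions over all
multiplicative majorants with many primes: for all `c > 0`, `x₀`, `ε > 0`, `Q ≥ 1` and `r` prime to `Q`
there is `N₀` such that for all `N ≥ N₀`, for all multiplicative `h` with values in `[0, 1]` and
`∑_{p ≤ x} h p ≥ c x / log x` for `x ≥ x₀`, and all multiplicative `g` with `|g| ≤ h`, the sum of `g n`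
over the `n ≤ N` with `n ≡ r` modulo `Q` and the property `P` is `l` times the sum over all `n ≤ N` with
`n ≡ r` modulo `Q`, up to `ε ∑_{n ≤ N} h n`. -/
def Relative (P : ℕ → Prop) (l : ℝ) : Prop := ∀ (c : ℝ) (x₀ : ℕ) (ε : ℝ) (Q r : ℕ), 0 < c → 0 < ε →
  1 ≤ Q → r.Coprime Q → ∃ N₀ : ℕ, ∀ N : ℕ, N₀ ≤ N → ∀ h : ArithmeticFunction ℝ, h.IsMultiplicative →
    (∀ n, 0 ≤ h n ∧ h n ≤ 1) → PrimeMean c x₀ h →
    ∀ g : ArithmeticFunction ℂ, g.IsMultiplicative → (∀ n, ‖g n‖ ≤ h n) →
    ‖∑ n ∈ (Icc 1 N).filter (fun n => n % Q = r % Q ∧ P n), g n -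
      l * ∑ n ∈ (Icc 1 N).filter (fun n => n % Q = r % Q), g n‖ ≤ ε * ∑ n ∈ Icc 1 N, h n

/-- `E` contains at least `c x / log x` primes `p ≤ x`, for all `x ≥ x₀`. -/
def ManyPrimes (c : ℝ) (x₀ : ℕ) (E : Set ℕ) : Prop :=
  ∀ x : ℕ, x₀ ≤ x → c * (x / Real.log x) ≤ {p : ℕ | p.Prime ∧ p ≤ x ∧ p ∈ E}.ncard

/-- `E` is a multiplicative set of positive integers: it contains `1`, and the product of coprime
integers is in `E` if and only if both factors are. -/
def MultSet (E : Set ℕ) : Prop :=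
  0 ∉ E ∧ 1 ∈ E ∧ ∀ m n : ℕ, m.Coprime n → (m * n ∈ E ↔ m ∈ E ∧ n ∈ E)

/-- The positive sums of two squares. -/
def TwoSquares : Set ℕ := {n | 1 ≤ n ∧ ∃ x y : ℕ, n = x ^ 2 + y ^ 2}

/-- The positive integers all of whose prime factors are congruent modulo `q` to elements of `A`. -/
def PrimesIn (q : ℕ) (A : Set ℕ) : Set ℕ := {n | 1 ≤ n ∧ ∀ p : ℕ, p.Prime → p ∣ n → ∃ a ∈ A, p % q = a % q}

theorem bound_iff (x : ℝ) {n : ℕ} (hn : 1 < n) (t : ℕ) :
    (t : ℝ) / Real.log n ≤ bound x n ↔ (t : ℝ) ≤ 2 / Real.log (4 / 3) * Real.log n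
      + x * (Real.log 3 * Real.sqrt (2 * Real.log n / Real.log (4 / 3) ^ 3)) := by
  have hL : 0 < Real.log n := Real.log_pos (by exact_mod_cast hn)
  have hnu : 0 < Real.log (4 / 3) := Real.log_pos (by norm_num)
  rw [div_le_iff₀ hL]
  have e : bound x n * Real.log n = 2 / Real.log (4 / 3) * Real.log n
      + x * (Real.log 3 * Real.sqrt (2 * Real.log n / Real.log (4 / 3) ^ 3)) := by
    unfold bound
    have h1 : Real.sqrt (2 * Real.log n / Real.log (4 / 3) ^ 3)
        = Real.sqrt (2 / (Real.log (4 / 3) ^ 3 * Real.log n)) * Real.log n := by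
      have h2 : 2 * Real.log n / Real.log (4 / 3) ^ 3
          = 2 / (Real.log (4 / 3) ^ 3 * Real.log n) * Real.log n ^ 2 := by field_simp
      rw [h2, Real.sqrt_mul (by positivity), Real.sqrt_sq hL.le]
    rw [h1, add_mul]
    congr 1
    · field_simp
    · ring
  rw [e]

open Pool.Agent.Y964.LW in
theorem rel_of {P : ℕ → Prop} {l : ℝ} (h : RL P l) : Relative P l := RL_full h

/-- THE LIMIT LAW OF THE SCALED TOTAL STOPPING TIMES ALONG MULTIPLICATIVE SETS AND FUNCTIONS.
Let `δ > 0` be the natural density of the positive integers with finite total stopping time (`δ = 1`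
if and only if all are of this kind). In the sense of `Relative` (sums of multiplicative functions
`g`, `|g| ≤ h`, over the integers `n ≤ N`, in the reduced residue classes modulo `Q`, with errors
`o(∑ h)`, uniformly in `g` and `h`):
(1) the `n` with infinite total stopping time have frequency `1 - δ`;
(2) the `n` with finite total stopping time `≡ a` and number of odd terms before `1` `≡ b` modulo `m`,
and scaled total stopping time at most `(½ log (4/3))⁻¹ + x log 3 √(2 / ((log (4/3))^3 log n))`, have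
frequency `δ Φ(x) / m²`, `Φ` the standard normal distribution function; without the last condition
the frequency is `δ / m²`;
(3) for every `η > 0` the `n` with scaled total stopping time within `η` of `2 / log (4/3)` have
frequency `δ`.
(4) SETS. Let `P` have the relative frequency `l`. For all `c > 0`, `x₀`, `ε > 0`, `Q`, `r` prime to `Q`
and `N ≥ N₀`, for every multiplicative set `E` of positive integers with at least `c x / log x` primes
up to `x` for `x ≥ x₀`, the number of the `n ≤ N` in `E` with `P` and `n ≡ r` modulo `Q` is `l` times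
the number of the `n ≤ N` in `E` with `n ≡ r` modulo `Q`, up to `ε` times the number of all `n ≤ N` in
`E` (uniformly in `E`); and `P` has relative density `l` in `E`.
(5) The sums of two squares, and the integers composed of primes in given residue classes modulo `q`
(at least one of them prime to `q`), are such sets `E`. -/
theorem result : ∃ δ : ℝ, 0 < δ ∧ δ ≤ 1 ∧ (δ = 1 ↔ ∀ n : ℕ, 1 ≤ n → ∃ t, IsTotalStoppingTime n t) ∧
    HasDensity (fun n => ∃ t, IsTotalStoppingTime n t) δ ∧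
    Relative (fun n => ¬ ∃ t, IsTotalStoppingTime n t) (1 - δ) ∧
    (∀ (m : ℕ) (a b : ℤ), 1 ≤ m →
      (∀ x : ℝ, Relative (Level m a b x) (δ * Phi x / m ^ 2)) ∧
      Relative (fun n => ∃ t : ℕ, IsTotalStoppingTime n t ∧ (t : ℤ) ≡ a [ZMOD m] ∧
        (odds t n : ℤ) ≡ b [ZMOD m]) (δ / m ^ 2)) ∧
    (∀ η : ℝ, 0 < η → Relative (fun n => ∃ t : ℕ, IsTotalStoppingTime n t ∧
      |(t : ℝ) / Real.log n - 2 / Real.log (4 / 3)| ≤ η) δ) ∧
    (∀ (P : ℕ → Prop) (l : ℝ), Relative P l →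
      (∀ (c : ℝ) (x₀ : ℕ) (ε : ℝ) (Q r : ℕ), 0 < c → 0 < ε → 1 ≤ Q → r.Coprime Q →
        ∃ N₀ : ℕ, ∀ N : ℕ, N₀ ≤ N → ∀ E : Set ℕ, MultSet E → ManyPrimes c x₀ E →
        |({n : ℕ | n ≤ N ∧ n ∈ E ∧ n % Q = r % Q ∧ P n}.ncard : ℝ) -
          l * {n : ℕ | n ≤ N ∧ n ∈ E ∧ n % Q = r % Q}.ncard| ≤ ε * {n : ℕ | n ≤ N ∧ n ∈ E}.ncard) ∧
      (∀ (c : ℝ) (x₀ : ℕ) (E : Set ℕ), 0 < c → MultSet E → ManyPrimes c x₀ E →
        Tendsto (fun N : ℕ => ({n : ℕ | n ≤ N ∧ n ∈ E ∧ P n}.ncard : ℝ) / {n : ℕ | n ≤ N ∧ n ∈ E}.ncard)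
          atTop (𝓝 l))) ∧
    (MultSet TwoSquares ∧ ∃ c : ℝ, 0 < c ∧ ∃ x₀ : ℕ, ManyPrimes c x₀ TwoSquares) ∧
    (∀ (q a : ℕ) (A : Set ℕ), 1 ≤ q → a ∈ A → a.Coprime q → MultSet (PrimesIn q A) ∧
      ∃ c : ℝ, 0 < c ∧ ∃ x₀ : ℕ, ManyPrimes c x₀ (PrimesIn q A)) := by
  obtain ⟨δ, h0, h1, h2, h3, h4, h5⟩ := Pool.Agent.Y964.LW.rel_laws
  have hiff : ∀ n : ℕ, (∃ k : ℕ, T^[k] n = 1) ↔ ∃ t, IsTotalStoppingTime n t :=
    Pool.Agent.Y964.LW.hit_iff
  have hH : Pool.Agent.Y964.LW.RL (fun n => ∃ t, IsTotalStoppingTime n t) δ := h4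
  have hodds : ∀ k n : ℕ, Pool.Agent.H499R2.LT.odn k n = odds k n := fun _ _ => rfl
  refine ⟨δ, h0, h1, h2.trans (forall₂_congr fun n _ => hiff n), ?_, ?_, fun m a b hm => ⟨fun x => ?_, ?_⟩,
    fun η hη => ?_, fun P l hP => ⟨?_, ?_⟩, ?_, ?_⟩
  · exact Pool.Agent.H499R2.LT.Dn_iff (fun n _ => hiff n) h3
  · exact rel_of (Pool.Agent.Y964.LW.RL_not hH (fun _ => Iff.rfl))
  · apply rel_of
    have h6 := ((h5 m a b hm).2.2 x).1
    have e : δ / (m : ℝ) ^ 2 * Pool.Agent.H499R2.ND.Phi x = δ * Phi x / m ^ 2 := by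
      unfold Phi
      rw [← Pool.Agent.H499R2.ND.phi_cdf]
      ring
    rw [e] at h6
    refine Pool.Agent.Y964.LW.RL_congr 2 (fun n hn => exists_congr fun t => ?_) h6
    rw [bound_iff x (by omega) t, hodds]
    show _ ∧ _ ∧ _ ↔ _
    constructor
    · rintro ⟨g1, g2, g3⟩; exact ⟨g2, g1, g3⟩
    · rintro ⟨g1, g2, g3⟩; exact ⟨g2, g1, g3⟩
  · exact rel_of (h5 m a b hm).1
  · apply rel_of
    have hrr := Pool.Agent.H499R2.HL.rr_pos
    have hl3 : 0 < Real.log 3 := Real.log_pos (by norm_num)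
    have h6 := Pool.Agent.Y964.LW.lln (f := fun k _ => (k : ℝ)) (α := 2 / Real.log (4 / 3))
      (σ := Real.log 3 * Pool.Agent.H499R2.HL.rr) (δ := δ) (η := η) (by positivity) h0.le h1 hη (fun x => by
        have h7 := ((h5 1 0 0 le_rfl).2.2 x).1
        have e1 : δ / ((1 : ℕ) : ℝ) ^ 2 * Pool.Agent.H499R2.ND.Phi x = δ * Pool.Agent.H499R2.ND.Phi x := by simp
        rw [e1] at h7
        refine Pool.Agent.Y964.LW.RL_congr 0 (fun n _ => exists_congr fun k => and_congr_right fun _ => ?_) h7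
        rw [← Pool.Agent.Y964.LW.bk_thr]
        simp [Int.modEq_one]) h4
    refine Pool.Agent.Y964.LW.RL_congr 2 (fun n hn => exists_congr fun t => and_congr_right fun _ => ?_) h6
    have hL : 0 < Real.log n := Real.log_pos (by exact_mod_cast (by omega : 1 < n))
    have e : (t : ℝ) - 2 / Real.log (4 / 3) * Real.log n =
        ((t : ℝ) / Real.log n - 2 / Real.log (4 / 3)) * Real.log n := by field_simp
    rw [e, abs_mul, abs_of_pos hL]
    exact mul_le_mul_iff_left₀ hL
  · intro c x₀ ε Q r hc hε hQ hr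
    exact Pool.Agent.Y964.LW.Rel.sets hP c x₀ ε Q r hc hε hQ hr
  · intro c x₀ E hc hE hp
    exact Pool.Agent.Y964.LW.Rel.lim hP c x₀ E hc hE hp
  · exact Pool.Agent.Y964.LW.two_sq (fun n => Iff.rfl)
  · intro q a A hq haA ha
    exact Pool.Agent.Y964.LW.primes_in hq (fun n => Iff.rfl) haA ha

end Pool.Agent.Results.MP_f7abf1_nt.StoppingTimesInSemigroups
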