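import Pool.Agent.Y966.UB.Fin4

/-!
The large deviation law of the total stopping time of the `3x+1` function in the full range of
slopes, for straight trajectories and for steady trajectories.
-/

set_option autoImplicit false

namespace Pool.Agent.Results.MP_f7abf1_nt.StraightTrajectories

/-- The `3x+1` function. -/
def T (n : ℕ) : ℕ := if n % 2 = 0 then n / 2 else (3 * n + 1) / 2

/-- `k` is the total stopping time of `n`: the least `k ≥ 0` with `T^(k)(n) = 1` (so it is finite). -/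
def IsStoppingTime (n k : ℕ) : Prop := IsLeast {j : ℕ | T^[j] n = 1} k

/-- `g(a) = sup_θ (θ a - log (½ (2^θ + (2/3)^θ)))`. -/
noncomputable def g (a : ℝ) : ℝ :=
  ⨆ θ : ℝ, (θ * a - Real.log ((1 / 2) * ((2 : ℝ) ^ θ + (2 / 3 : ℝ) ^ θ)))

/-- The number of odd terms among `m, T(m), …, T^(L-1)(m)`. -/
def odds (L m : ℕ) : ℕ := ((Finset.range L).filter fun j => T^[j] m % 2 = 1).card

/-- The frequency `ρ` of odd terms of a trajectory with slope `-1/α` on the logarithmic scale: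
`log 2 - ρ log 3 = 1/α`. -/
noncomputable def freq (α : ℝ) : ℝ := (Real.log 2 - 1 / α) / Real.log 3

/-- The numbers `2 ≤ n ≤ x` whose trajectory reaches `1` and is straight of slope `-1/α`, with
tolerance `δ`, at the scale of `L` steps: of any `L` consecutive terms before `1` is reached,
between `(ρ(α) - δ) L` and `(ρ(α) + δ) L` are odd. -/
def Straight (α δ : ℝ) (L : ℕ) (x : ℝ) : Set ℕ :=
  {n : ℕ | 2 ≤ n ∧ (n : ℝ) ≤ x ∧ ∃ k : ℕ, IsStoppingTime n k ∧
    ∀ i : ℕ, i + L ≤ k → |(odds L (T^[i] n) : ℝ) - freq α * L| ≤ δ * L}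

/-- The trajectory of `n` up to time `k` is steady: of any `L` consecutive terms at least `η L` and
at most `ρ(γ) L` are odd (it nowhere decreases more slowly, over `L` steps, than with the slope
`-1/γ`). -/
def Steady (η γ : ℝ) (L n k : ℕ) : Prop :=
  ∀ i : ℕ, i + L ≤ k → η * L ≤ (odds L (T^[i] n) : ℝ) ∧ (odds L (T^[i] n) : ℝ) ≤ freq γ * L

/-- The numbers `2 ≤ n ≤ x` with a steady trajectory to `1` and `σ_∞(n) ≤ α log n`. -/
def SteadyLow (η γ α : ℝ) (L : ℕ) (x : ℝ) : Set ℕ :=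
  {n : ℕ | 2 ≤ n ∧ (n : ℝ) ≤ x ∧ ∃ k : ℕ, IsStoppingTime n k ∧ (k : ℝ) ≤ α * Real.log n ∧
    Steady η γ L n k}

/-- The numbers `2 ≤ n ≤ x` with a steady trajectory to `1` and `σ_∞(n) ≥ α log n`. -/
def SteadyHigh (η γ α : ℝ) (L : ℕ) (x : ℝ) : Set ℕ :=
  {n : ℕ | 2 ≤ n ∧ (n : ℝ) ≤ x ∧ ∃ k : ℕ, IsStoppingTime n k ∧ α * Real.log n ≤ (k : ℝ) ∧
    Steady η γ L n k}

/-- (1) For EVERY `α > 1 / log 2` the number of `n ≤ x` whose trajectory to `1` is straight of slope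
`-1/α` is `x^(max(0, 1 - α g(1/α)) + o(1))`.
(2) `1 - α g(1/α)` is positive for `α < γ_RRW` and `≤ 0` for `α ≥ γ_RRW`.
(3) Among the trajectories which are steady with `γ ≤ γ_RRW`, both tails of the total stopping time
follow the large deviation law of the repeated random walk model, up to `γ`. -/
theorem result :
    (∀ α : ℝ, 1 / Real.log 2 < α → ∀ ε : ℝ, 0 < ε → ∃ δ₀ : ℝ, 0 < δ₀ ∧ ∀ δ : ℝ, 0 < δ → δ ≤ δ₀ →
      ∃ L₀ : ℕ, ∀ L : ℕ, L₀ ≤ L → ∃ X₀ : ℝ, ∀ x : ℝ, X₀ ≤ x →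
        x ^ (max 0 (1 - α * g (1 / α)) - ε) ≤ ((Straight α δ L x).ncard : ℝ) ∧
        ((Straight α δ L x).ncard : ℝ) ≤ x ^ (max 0 (1 - α * g (1 / α)) + ε)) ∧
    (∀ γ : ℝ, 2 / Real.log (4 / 3) < γ → γ * g (1 / γ) = 1 → ∀ α : ℝ, 1 / Real.log 2 < α →
      (α < γ → 0 < 1 - α * g (1 / α)) ∧ (γ ≤ α → 1 - α * g (1 / α) ≤ 0)) ∧
    (∀ α γ η : ℝ, 1 / Real.log 2 < α → α < γ → γ * g (1 / γ) ≤ 1 → 0 < η → η < freq α →
      ∀ ε : ℝ, 0 < ε → ∃ L₀ : ℕ, ∀ L : ℕ, L₀ ≤ L → ∃ X₀ : ℝ, ∀ x : ℝ, X₀ ≤ x →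
        (α ≤ 2 / Real.log (4 / 3) →
          x ^ (1 - α * g (1 / α) - ε) ≤ ((SteadyLow η γ α L x).ncard : ℝ) ∧
          ((SteadyLow η γ α L x).ncard : ℝ) ≤ x ^ (1 - α * g (1 / α) + ε)) ∧
        (2 / Real.log (4 / 3) ≤ α →
          x ^ (1 - α * g (1 / α) - ε) ≤ ((SteadyHigh η γ α L x).ncard : ℝ) ∧
          ((SteadyHigh η γ α L x).ncard : ℝ) ≤ x ^ (1 - α * g (1 / α) + ε))) := by
  open Pool.Agent.H395R2.G3 Pool.Agent.Y966.LD Pool.Agent.Y966.UB in
  have key : ∀ L n i : ℕ, oc L (TZ^[i] (n : ℤ)) = odds L (T^[i] n) := by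
    intro L n i
    rw [← cast_fT_iter, ← oN_eq]
    rfl
  have hl2 : 0 < Real.log 2 := Real.log_pos (by norm_num)
  have h43 : 0 < Real.log (4 / 3) := Real.log_pos (by norm_num)
  have hexp : ∀ α : ℝ, 1 / Real.log 2 < α → 1 - α * g (1 / α) = α * FF (rr α) :=
    fun α hα => expo_eq hα
  have hcmp : 1 / Real.log 2 < 2 / Real.log (4 / 3) := by
    rw [div_lt_div_iff₀ hl2 h43]
    have h : Real.log (4 / 3) < Real.log 2 := Real.log_lt_log (by norm_num) (by norm_num)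
    linarith
  refine ⟨fun α hα ε hε => ?_, fun γ hγ hγ1 α hα => ⟨fun h => ?_, fun h => ?_⟩,
    fun α γ η hα hαγ hγ1 hη hηα ε hε => ?_⟩
  · obtain ⟨δ₀, hδ₀, H⟩ := straight_law hα hε
    refine ⟨δ₀, hδ₀, fun δ hδ hδδ => ?_⟩
    obtain ⟨L₀, hL₀⟩ := H δ hδ hδδ
    refine ⟨L₀, fun L hL => ?_⟩
    obtain ⟨X₀, hX₀⟩ := hL₀ L hL
    refine ⟨X₀, fun x hx => ?_⟩
    have e : Straight α δ L x = St (rr α) δ L x := by
      unfold Straight St IsStoppingTime
      simp only [key]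
      rfl
    rw [e]
    exact hX₀ x hx
  · have hγ0 : 0 < γ := lt_trans (by positivity) (hcmp.trans hγ)
    have hα0 : 0 < α := lt_trans (by positivity) hα
    have h1 := hexp γ (hcmp.trans hγ)
    rw [hγ1, sub_self] at h1
    have h2 : FF (rr γ) = 0 := by
      rcases mul_eq_zero.1 h1.symm with h3 | h3
      · exact absurd h3 hγ0.ne'
      · exact h3
    have h3 := FF_pos_of (rr_pos hα) (rr_mono hα0 h) (rr_lt_one hγ0).le h2.ge
    rw [hexp α hα]
    positivity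
  · have hγ0 : 0 < γ := lt_trans (by positivity) (hcmp.trans hγ)
    have hα0 : 0 < α := lt_trans (by positivity) hα
    have h1 := hexp γ (hcmp.trans hγ)
    rw [hγ1, sub_self] at h1
    have h2 : FF (rr γ) = 0 := by
      rcases mul_eq_zero.1 h1.symm with h3 | h3
      · exact absurd h3 hγ0.ne'
      · exact h3
    rcases eq_or_lt_of_le h with h3 | h3
    · rw [← h3, hγ1, sub_self]
    · rw [hexp α hα]
      by_contra hcon
      push Not at hcon
      have h4 : 0 < FF (rr α) := pos_of_mul_pos_right hcon hα0.le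
      have h5 := FF_pos_of (rr_pos (hcmp.trans hγ)) (rr_mono hγ0 h3) (rr_lt_one hα0).le h4.le
      linarith
  · have hα0 : 0 < α := lt_trans (by positivity) hα
    have hγ0 : 0 < γ := hα0.trans hαγ
    have hF : 0 ≤ FF (rr γ) := by
      have h1 := hexp γ (hα.trans hαγ)
      by_contra hcon
      push Not at hcon
      have : γ * FF (rr γ) < 0 := mul_neg_of_pos_of_neg hγ0 hcon
      linarith
    have hη' : η < rr α := hηα
    have eL : ∀ (L : ℕ) (x : ℝ), SteadyLow η γ α L x = Sd (· ≤ ·) η (rr γ) α L x := by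
      intro L x
      unfold SteadyLow Sd IsStoppingTime Steady
      simp only [key]
      rfl
    have eH : ∀ (L : ℕ) (x : ℝ), SteadyHigh η γ α L x = Sd (fun s t => t ≤ s) η (rr γ) α L x := by
      intro L x
      unfold SteadyHigh Sd IsStoppingTime Steady
      simp only [key]
      rfl
    rw [hexp α hα]
    simp only [eL, eH]
    rcases le_total α (2 / Real.log (4 / 3)) with hc | hc
    · obtain ⟨L₁, H₁⟩ := tail_low_lower hα hαγ hF hη' hε
      obtain ⟨L₂, H₂⟩ := tail_low_upper hα hαγ hF hc hη hε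
      rcases eq_or_lt_of_le hc with hc' | hc'
      · obtain ⟨L₃, H₃⟩ := tail_high_lower hα hαγ hF hη' hε
        obtain ⟨L₄, H₄⟩ := tail_high_upper hα hαγ hF hc'.ge hη hε
        refine ⟨max (max L₁ L₂) (max L₃ L₄), fun L hL => ?_⟩
        obtain ⟨X₁, _, K₁⟩ := H₁ L (((le_max_left _ _).trans (le_max_left _ _)).trans hL)
        obtain ⟨X₂, _, K₂⟩ := H₂ L (((le_max_right _ _).trans (le_max_left _ _)).trans hL)
        obtain ⟨X₃, _, K₃⟩ := H₃ L (((le_max_left _ _).trans (le_max_right _ _)).trans hL)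
        obtain ⟨X₄, _, K₄⟩ := H₄ L (((le_max_right _ _).trans (le_max_right _ _)).trans hL)
        refine ⟨max (max X₁ X₂) (max X₃ X₄), fun x hx => ⟨fun _ => ⟨K₁ x ?_, K₂ x ?_⟩,
          fun _ => ⟨K₃ x ?_, K₄ x ?_⟩⟩⟩
        · exact ((le_max_left _ _).trans (le_max_left _ _)).trans hx
        · exact ((le_max_right _ _).trans (le_max_left _ _)).trans hx
        · exact ((le_max_left _ _).trans (le_max_right _ _)).trans hx
        · exact ((le_max_right _ _).trans (le_max_right _ _)).trans hx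
      · refine ⟨max L₁ L₂, fun L hL => ?_⟩
        obtain ⟨X₁, _, K₁⟩ := H₁ L ((le_max_left _ _).trans hL)
        obtain ⟨X₂, _, K₂⟩ := H₂ L ((le_max_right _ _).trans hL)
        exact ⟨max X₁ X₂, fun x hx => ⟨fun _ => ⟨K₁ x ((le_max_left _ _).trans hx),
          K₂ x ((le_max_right _ _).trans hx)⟩, fun h => absurd h (not_le.2 hc')⟩⟩
    · rcases eq_or_lt_of_le hc with hc' | hc'
      · obtain ⟨L₁, H₁⟩ := tail_low_lower hα hαγ hF hη' hε
        obtain ⟨L₂, H₂⟩ := tail_low_upper hα hαγ hF hc'.ge hη hε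
        obtain ⟨L₃, H₃⟩ := tail_high_lower hα hαγ hF hη' hε
        obtain ⟨L₄, H₄⟩ := tail_high_upper hα hαγ hF hc hη hε
        refine ⟨max (max L₁ L₂) (max L₃ L₄), fun L hL => ?_⟩
        obtain ⟨X₁, _, K₁⟩ := H₁ L (((le_max_left _ _).trans (le_max_left _ _)).trans hL)
        obtain ⟨X₂, _, K₂⟩ := H₂ L (((le_max_right _ _).trans (le_max_left _ _)).trans hL)
        obtain ⟨X₃, _, K₃⟩ := H₃ L (((le_max_left _ _).trans (le_max_right _ _)).trans hL)
        obtain ⟨X₄, _, K₄⟩ := H₄ L (((le_max_right _ _).trans (le_max_right _ _)).trans hL)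
        refine ⟨max (max X₁ X₂) (max X₃ X₄), fun x hx => ⟨fun _ => ⟨K₁ x ?_, K₂ x ?_⟩,
          fun _ => ⟨K₃ x ?_, K₄ x ?_⟩⟩⟩
        · exact ((le_max_left _ _).trans (le_max_left _ _)).trans hx
        · exact ((le_max_right _ _).trans (le_max_left _ _)).trans hx
        · exact ((le_max_left _ _).trans (le_max_right _ _)).trans hx
        · exact ((le_max_right _ _).trans (le_max_right _ _)).trans hx
      · obtain ⟨L₁, H₁⟩ := tail_high_lower hα hαγ hF hη' hε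
        obtain ⟨L₂, H₂⟩ := tail_high_upper hα hαγ hF hc hη hε
        refine ⟨max L₁ L₂, fun L hL => ?_⟩
        obtain ⟨X₁, _, K₁⟩ := H₁ L ((le_max_left _ _).trans hL)
        obtain ⟨X₂, _, K₂⟩ := H₂ L ((le_max_right _ _).trans hL)
        exact ⟨max X₁ X₂, fun x hx => ⟨fun h => absurd h (not_le.2 hc'),
          fun _ => ⟨K₁ x ((le_max_left _ _).trans hx), K₂ x ((le_max_right _ _).trans hx)⟩⟩⟩

end Pool.Agent.Results.MP_f7abf1_nt.StraightTrajectories
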